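import Mathlib

/-!
# The class of lattices embeddable in subspace lattices over division rings is not finitely axiomatizable

For a prime `p` let `L_p = Sub(𝔽_p ^ 3) × Sub(ℚ ^ 3)`. An embedding of `L_p` in the lattice of subspaces
of a vector space over a division ring `D` forces `p = 0` in `D` (first factor) and `p ≠ 0` in `D`
(second factor), so `L_p` is not in `𝒦`. A nonprincipal ultraproduct of the `L_p` embeds in
`Sub(D ^ 3) × Sub(D ^ 3) ⊆ Sub(D ^ 3 ⊕ D ^ 3)`, where `D` is a common extension field of the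
ultraproduct of the fields `𝔽_p` and of the ultrapower of `ℚ`, two fields of characteristic zero.
-/

namespace Pool.Agent.Results.MP_d4b74c_al.NotFinitelyAxiomatizable

open FirstOrder Filter

universe u

/-! ## The language of lattices -/

/-- The function symbols of the language of lattices: two binary symbols. -/
inductive LatFun : ℕ → Type
  | inf : LatFun 2
  | sup : LatFun 2

/-- The first-order language `{∧, ∨}` of lattices. -/
def latLang : FirstOrder.Language.{0, 0} := ⟨LatFun, fun _ => Empty⟩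

/-- Every lattice is a structure for the language of lattices. -/
instance latStructure (L : Type u) [Lattice L] : latLang.Structure L where
  funMap {n} f x := by
    cases f with
    | inf => exact x 0 ⊓ x 1
    | sup => exact x 0 ⊔ x 1
  RelMap {_} r _ := Empty.elim r

/-- The class `𝒦`: the lattice `L` embeds, by an injective map preserving binary meets and joins,
in the lattice of all subspaces of a left vector space over a (not necessarily commutative)
division ring. -/
def InK (L : Type u) [Lattice L] : Prop :=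
  ∃ (D : Type u) (_ : DivisionRing D) (V : Type u) (_ : AddCommGroup V) (_ : Module D V)
    (f : L → Submodule D V), Function.Injective f ∧
      (∀ a b, f (a ⊓ b) = f a ⊓ f b) ∧ ∀ a b, f (a ⊔ b) = f a ⊔ f b

/-! ## A sublattice `Sub(F ^ 3)` determines the characteristic -/

section Char

variable {F : Type*} [Field F] {D : Type*} [DivisionRing D] {V : Type*} [AddCommGroup V]
  [Module D V] (f : Submodule F (Fin 3 → F) → Submodule D V)

/-- the line spanned by the vector `(a, b, c)` -/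
def ln (a b c : F) : Submodule F (Fin 3 → F) := Submodule.span F {![a, b, c]}

theorem mem_ln {a b c : F} {v : Fin 3 → F} :
    v ∈ ln a b c ↔ ∃ t : F, v 0 = t * a ∧ v 1 = t * b ∧ v 2 = t * c := by
  unfold ln
  rw [Submodule.mem_span_singleton]
  constructor
  · rintro ⟨t, rfl⟩
    exact ⟨t, by simp⟩
  · rintro ⟨t, h0, h1, h2⟩
    refine ⟨t, ?_⟩
    ext i
    fin_cases i <;> simp [h0, h1, h2]

theorem ln_ne_bot {a b c : F} (h : a ≠ 0 ∨ b ≠ 0 ∨ c ≠ 0) : ln a b c ≠ ⊥ := by
  unfold ln
  rw [Ne, Submodule.span_singleton_eq_bot]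
  intro h0
  have h1 := congrFun h0 0
  have h2 := congrFun h0 1
  have h3 := congrFun h0 2
  simp at h1 h2 h3
  rcases h with h | h | h
  · exact h h1
  · exact h h2
  · exact h h3

variable {f}

theorem mono_of_inf (hinf : ∀ a b, f (a ⊓ b) = f a ⊓ f b) {a b : Submodule F (Fin 3 → F)}
    (h : a ≤ b) : f a ≤ f b := by
  have h1 := hinf a b
  rw [inf_eq_left.mpr h] at h1
  rw [h1]
  exact inf_le_right

theorem key (hinf : ∀ a b, f (a ⊓ b) = f a ⊓ f b) (hsup : ∀ a b, f (a ⊔ b) = f a ⊔ f b)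
    {x y z : V} (hx : x ∈ f (ln 1 0 0)) (hy : y ∈ f (ln 0 1 0)) (hz : z ∈ f (ln 0 0 1))
    (hxz : x + z ∈ f (ln 1 0 1)) (hyz : y - z ∈ f (ln 0 1 (-1))) (n : ℕ) :
    x + n • y ∈ f (ln 1 (n : F) 0) := by
  induction n with
  | zero => simpa using hx
  | succ n ih =>
    have h1 : x + n • y + z ∈ f (ln 1 (n : F) 1) := by
      have hle : (ln 1 (n : F) 0 ⊔ ln 0 0 1) ⊓ (ln 1 0 1 ⊔ ln 0 1 0) ≤ ln 1 (n : F) 1 := by
        rintro v ⟨hv1, hv2⟩
        rw [SetLike.mem_coe, Submodule.mem_sup] at hv1 hv2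
        obtain ⟨a, ha, b, hb, rfl⟩ := hv1
        obtain ⟨c, hc, d, hd, hcd⟩ := hv2
        rw [mem_ln] at ha hb hc hd ⊢
        obtain ⟨s1, h10, h11, h12⟩ := ha
        obtain ⟨s2, h20, h21, h22⟩ := hb
        obtain ⟨s3, h30, h31, h32⟩ := hc
        obtain ⟨s4, h40, h41, h42⟩ := hd
        have e0 := congrFun hcd 0
        have e1 := congrFun hcd 1
        have e2 := congrFun hcd 2
        simp only [Pi.add_apply, h10, h11, h12, h20, h21, h22, h30, h31, h32, h40, h41, h42]
          at e0 e1 e2 ⊢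
        refine ⟨s1, by ring, by ring, ?_⟩
        linear_combination -e2 + e0
      have hm : x + n • y + z ∈ f ((ln 1 (n : F) 0 ⊔ ln 0 0 1) ⊓ (ln 1 0 1 ⊔ ln 0 1 0)) := by
        rw [hinf, hsup, hsup]
        refine ⟨Submodule.add_mem_sup ih hz, ?_⟩
        have : x + n • y + z = (x + z) + n • y := by abel
        rw [this]
        exact Submodule.add_mem_sup hxz (Submodule.smul_of_tower_mem _ n hy)
      exact mono_of_inf hinf hle hm
    have hle : (ln 1 (n : F) 1 ⊔ ln 0 1 (-1)) ⊓ (ln 1 0 0 ⊔ ln 0 1 0) ≤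
        ln 1 ((n + 1 : ℕ) : F) 0 := by
      rintro v ⟨hv1, hv2⟩
      rw [SetLike.mem_coe, Submodule.mem_sup] at hv1 hv2
      obtain ⟨a, ha, b, hb, rfl⟩ := hv1
      obtain ⟨c, hc, d, hd, hcd⟩ := hv2
      rw [mem_ln] at ha hb hc hd ⊢
      obtain ⟨s1, h10, h11, h12⟩ := ha
      obtain ⟨s2, h20, h21, h22⟩ := hb
      obtain ⟨s3, h30, h31, h32⟩ := hc
      obtain ⟨s4, h40, h41, h42⟩ := hd
      have e0 := congrFun hcd 0
      have e1 := congrFun hcd 1
      have e2 := congrFun hcd 2
      simp only [Pi.add_apply, h10, h11, h12, h20, h21, h22, h30, h31, h32, h40, h41, h42]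
        at e0 e1 e2 ⊢
      refine ⟨s1, by ring, ?_, ?_⟩
      · push_cast
        linear_combination e2
      · linear_combination -e2
    have hm : x + (n + 1) • y ∈ f ((ln 1 (n : F) 1 ⊔ ln 0 1 (-1)) ⊓ (ln 1 0 0 ⊔ ln 0 1 0)) := by
      rw [hinf, hsup, hsup]
      refine ⟨?_, Submodule.add_mem_sup hx (Submodule.smul_of_tower_mem _ (n + 1) hy)⟩
      have : x + (n + 1) • y = (x + n • y + z) + (y - z) := by
        rw [succ_nsmul]; abel
      rw [this]
      exact Submodule.add_mem_sup h1 hyz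
    exact mono_of_inf hinf hle hm

theorem disj {a b c a' b' c' : F} (h : ln a b c ⊓ ln a' b' c' = ⊥)
    (hinf : ∀ a b, f (a ⊓ b) = f a ⊓ f b) {v : V} (h1 : v ∈ f (ln a b c))
    (h2 : v ∈ f (ln a' b' c')) : v ∈ f ⊥ := by
  rw [← h, hinf]; exact ⟨h1, h2⟩

/-- `Sub(F ^ 3)` embeds in `Sub(V)` only if `F` and `D` have the same characteristic. -/
theorem natCast_eq_zero_iff (hf : Function.Injective f)
    (hinf : ∀ a b, f (a ⊓ b) = f a ⊓ f b) (hsup : ∀ a b, f (a ⊔ b) = f a ⊔ f b) (m : ℕ) :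
    (m : F) = 0 ↔ (m : D) = 0 := by
  have hbot : ∀ U, f ⊥ ≤ f U := fun U => mono_of_inf hinf bot_le
  constructor
  · intro hm
    by_contra hD
    have hle : f (ln 0 1 0) ≤ f ⊥ := by
      intro y hy
      have h1 : (ln 0 1 0 : Submodule F (Fin 3 → F)) ≤ ln 0 1 (-1) ⊔ ln 0 0 1 := by
        intro v hv
        rw [mem_ln] at hv
        obtain ⟨t, h0, h1, h2⟩ := hv
        rw [Submodule.mem_sup]
        refine ⟨![0, t, -t], mem_ln.mpr ⟨t, by simp⟩, ![0, 0, t], mem_ln.mpr ⟨t, by simp⟩, ?_⟩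
        ext i
        fin_cases i <;> simp [h0, h1, h2]
      have h2 := mono_of_inf hinf h1 hy
      rw [hsup, Submodule.mem_sup] at h2
      obtain ⟨d, hd, z, hz, rfl⟩ := h2
      have h3 : (ln 0 0 1 : Submodule F (Fin 3 → F)) ≤ ln 1 0 1 ⊔ ln 1 0 0 := by
        intro v hv
        rw [mem_ln] at hv
        obtain ⟨t, h0, h1, h2⟩ := hv
        rw [Submodule.mem_sup]
        refine ⟨![t, 0, t], mem_ln.mpr ⟨t, by simp⟩, ![-t, 0, 0], mem_ln.mpr ⟨-t, by simp⟩, ?_⟩
        ext i
        fin_cases i <;> simp [h0, h1, h2]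
      have h4 := mono_of_inf hinf h3 hz
      rw [hsup, Submodule.mem_sup] at h4
      obtain ⟨g, hg, x, hx, hgx⟩ := h4
      have h5 := key hinf hsup (x := -x) (y := d + z) (z := z) (neg_mem hx) hy hz
        (by rw [← hgx]; simpa using hg) (by simpa using hd) m
      rw [hm] at h5
      have h6 : m • (d + z) ∈ f (ln 1 0 0) := by
        have := add_mem h5 hx
        simpa using this
      have h7 : m • (d + z) ∈ f ⊥ := by
        refine disj ?_ hinf h6 (Submodule.smul_of_tower_mem _ m hy)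
        rw [eq_bot_iff]
        rintro v ⟨hv1, hv2⟩
        rw [SetLike.mem_coe, mem_ln] at hv1 hv2
        obtain ⟨t, h0, h1, h2⟩ := hv1
        obtain ⟨s, g0, g1, g2⟩ := hv2
        rw [Submodule.mem_bot]
        ext i
        fin_cases i
        · simp [g0]
        · simp [h1]
        · simp [h2]
      have h8 : (m : D) • (d + z) ∈ f ⊥ := by rwa [Nat.cast_smul_eq_nsmul]
      have h9 := (f ⊥).smul_mem ((m : D)⁻¹) h8
      rwa [smul_smul, inv_mul_cancel₀ hD, one_smul] at h9
    have h1 : f (ln 0 1 0) = f ⊥ := le_antisymm hle (hbot _)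
    exact ln_ne_bot (Or.inr (Or.inl one_ne_zero)) (hf h1)
  · intro hD
    by_contra hm
    have hle : f (ln 1 0 0) ≤ f ⊥ := by
      intro x hx
      have h1 : (ln 1 0 0 : Submodule F (Fin 3 → F)) ≤ ln 1 0 1 ⊔ ln 0 0 1 := by
        intro v hv
        rw [mem_ln] at hv
        obtain ⟨t, h0, h1, h2⟩ := hv
        rw [Submodule.mem_sup]
        refine ⟨![t, 0, t], mem_ln.mpr ⟨t, by simp⟩, ![0, 0, -t], mem_ln.mpr ⟨-t, by simp⟩, ?_⟩
        ext i
        fin_cases i <;> simp [h0, h1, h2]
      have h2 := mono_of_inf hinf h1 hx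
      rw [hsup, Submodule.mem_sup] at h2
      obtain ⟨g, hg, z, hz, rfl⟩ := h2
      have h3 : (ln 0 0 1 : Submodule F (Fin 3 → F)) ≤ ln 0 1 (-1) ⊔ ln 0 1 0 := by
        intro v hv
        rw [mem_ln] at hv
        obtain ⟨t, h0, h1, h2⟩ := hv
        rw [Submodule.mem_sup]
        refine ⟨![0, -t, t], mem_ln.mpr ⟨-t, by simp⟩, ![0, t, 0], mem_ln.mpr ⟨t, by simp⟩, ?_⟩
        ext i
        fin_cases i <;> simp [h0, h1, h2]
      have h4 := mono_of_inf hinf h3 hz
      rw [hsup, Submodule.mem_sup] at h4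
      obtain ⟨d, hd, y, hy, hdy⟩ := h4
      have h5 := key hinf hsup (x := g + z) (y := -y) (z := -z) hx (neg_mem hy) (neg_mem hz)
        (by simpa using hg) (by rw [← hdy]; simpa using hd) m
      rw [← Nat.cast_smul_eq_nsmul D, hD, zero_smul, add_zero] at h5
      refine disj ?_ hinf h5 hx
      rw [eq_bot_iff]
      rintro v ⟨hv1, hv2⟩
      rw [SetLike.mem_coe, mem_ln] at hv1 hv2
      obtain ⟨t, h0, h1, h2⟩ := hv1
      obtain ⟨s, g0, g1, g2⟩ := hv2
      rw [mul_zero] at g1 g2
      rw [g1] at h1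
      have ht : t = 0 := by
        rcases mul_eq_zero.mp h1.symm with h | h
        · exact h
        · exact absurd h hm
      rw [Submodule.mem_bot]
      ext i
      fin_cases i
      · simp [h0, ht]
      · simp [g1]
      · simp [g2]
    have h1 : f (ln 1 0 0) = f ⊥ := le_antisymm hle (hbot _)
    exact ln_ne_bot (Or.inl one_ne_zero) (hf h1)

end Char

/-- `Sub(F ^ 3) × Sub(F' ^ 3)` is not in `𝒦` if the fields `F` and `F'` have different
characteristics. -/
theorem not_inK_prod {F F' : Type u} [Field F] [Field F'] (m : ℕ) (h0 : (m : F) = 0)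
    (h1 : (m : F') ≠ 0) :
    ¬ InK (Submodule F (Fin 3 → F) × Submodule F' (Fin 3 → F')) := by
  rintro ⟨D, _, V, _, _, f, hf, hinf, hsup⟩
  have e1 := natCast_eq_zero_iff (F := F) (D := D) (V := V) (f := fun U => f (U, ⊥))
    (fun a b hab => by simpa using hf hab)
    (fun a b => by rw [← hinf, Prod.mk_inf_mk, inf_bot_eq])
    (fun a b => by rw [← hsup, Prod.mk_sup_mk, sup_bot_eq]) m
  have e2 := natCast_eq_zero_iff (F := F') (D := D) (V := V) (f := fun U => f (⊥, U))
    (fun a b hab => by simpa using hf hab)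
    (fun a b => by rw [← hinf, Prod.mk_inf_mk, inf_bot_eq])
    (fun a b => by rw [← hsup, Prod.mk_sup_mk, sup_bot_eq]) m
  exact h1 (e2.mpr (e1.mp h0))

/-! ## Ultraproducts of fields and of subspace lattices -/

section Ultra

variable (𝓤 : Ultrafilter ℕ) (K : ℕ → Type u) [∀ i, Field (K i)]

/-- the ideal of the sequences which are zero almost everywhere -/
def nullIdeal : Ideal (∀ i, K i) where
  carrier := {a | ∀ᶠ i in (𝓤 : Filter ℕ), a i = 0}
  add_mem' := by
    intro a b ha hb
    filter_upwards [ha, hb] with i h1 h2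
    simp [h1, h2]
  zero_mem' := Eventually.of_forall fun i => rfl
  smul_mem' := by
    intro c a ha
    filter_upwards [ha] with i h1
    simp [h1]

theorem mem_nullIdeal {a : ∀ i, K i} : a ∈ nullIdeal 𝓤 K ↔ ∀ᶠ i in (𝓤 : Filter ℕ), a i = 0 :=
  Iff.rfl

instance nullIdeal_isMaximal : (nullIdeal 𝓤 K).IsMaximal := by
  rw [Ideal.isMaximal_iff]
  refine ⟨?_, ?_⟩
  · intro h
    rw [mem_nullIdeal] at h
    obtain ⟨i, hi⟩ := h.exists
    exact one_ne_zero hi
  · intro J a hJ ha haJ
    classical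
    rw [mem_nullIdeal, ← Ultrafilter.eventually_not] at ha
    have h1 : (fun i => (a i)⁻¹) * a - 1 ∈ nullIdeal 𝓤 K := by
      rw [mem_nullIdeal]
      filter_upwards [ha] with i hi
      simp [inv_mul_cancel₀ hi]
    have h2 := J.sub_mem (J.mul_mem_left (fun i => (a i)⁻¹) haJ) (hJ h1)
    simpa using h2

/-- the ultraproduct of the fields `K i` -/
abbrev UField : Type u := (∀ i, K i) ⧸ nullIdeal 𝓤 K

noncomputable instance : Field (UField 𝓤 K) := Ideal.Quotient.field _

variable {K}

/-- the ultraproduct of subspaces of the spaces `K i ^ 3` -/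
def star (U : ∀ i, Submodule (K i) (Fin 3 → K i)) :
    Submodule (UField 𝓤 K) (Fin 3 → UField 𝓤 K) where
  carrier := {v | ∃ w : ∀ i, Fin 3 → K i, (∀ᶠ i in (𝓤 : Filter ℕ), w i ∈ U i) ∧
    ∀ j, v j = Ideal.Quotient.mk (nullIdeal 𝓤 K) fun i => w i j}
  add_mem' := by
    rintro v v' ⟨w, hw, hv⟩ ⟨w', hw', hv'⟩
    refine ⟨fun i => w i + w' i, ?_, fun j => ?_⟩
    · filter_upwards [hw, hw'] with i h1 h2
      exact add_mem h1 h2
    · rw [Pi.add_apply, hv, hv', ← map_add]; rfl
  zero_mem' := ⟨fun i => 0, Eventually.of_forall fun i => zero_mem _, fun j => by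
    rw [Pi.zero_apply, ← map_zero (Ideal.Quotient.mk (nullIdeal 𝓤 K))]; rfl⟩
  smul_mem' := by
    rintro c v ⟨w, hw, hv⟩
    obtain ⟨c, rfl⟩ := Ideal.Quotient.mk_surjective c
    refine ⟨fun i => c i • w i, ?_, fun j => ?_⟩
    · filter_upwards [hw] with i h1
      exact (U i).smul_mem _ h1
    · rw [Pi.smul_apply, hv, smul_eq_mul, ← map_mul]; rfl

theorem mk_mem_star {U : ∀ i, Submodule (K i) (Fin 3 → K i)} {w : ∀ i, Fin 3 → K i} :
    (fun j => Ideal.Quotient.mk (nullIdeal 𝓤 K) fun i => w i j) ∈ star 𝓤 U ↔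
      ∀ᶠ i in (𝓤 : Filter ℕ), w i ∈ U i := by
  constructor
  · rintro ⟨w', hw', h⟩
    have h1 : ∀ j : Fin 3, ∀ᶠ i in (𝓤 : Filter ℕ), w i j = w' i j := by
      intro j
      have := h j
      rw [Ideal.Quotient.eq, mem_nullIdeal] at this
      filter_upwards [this] with i hi
      exact sub_eq_zero.mp hi
    filter_upwards [hw', h1 0, h1 1, h1 2] with i h2 h3 h4 h5
    have : w i = w' i := by
      ext j
      fin_cases j
      · exact h3
      · exact h4
      · exact h5
    rw [this]; exact h2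
  · intro h
    exact ⟨w, h, fun j => rfl⟩

theorem exists_rep (v : Fin 3 → UField 𝓤 K) : ∃ w : ∀ i, Fin 3 → K i,
    v = fun j => Ideal.Quotient.mk (nullIdeal 𝓤 K) fun i => w i j := by
  choose w hw using fun j => Ideal.Quotient.mk_surjective (v j)
  exact ⟨fun i j => w j i, funext fun j => (hw j).symm⟩

theorem star_le_star {U W : ∀ i, Submodule (K i) (Fin 3 → K i)} :
    star 𝓤 U ≤ star 𝓤 W ↔ ∀ᶠ i in (𝓤 : Filter ℕ), U i ≤ W i := by
  classical
  constructor
  · intro h
    by_contra hn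
    rw [← Ultrafilter.eventually_not] at hn
    have h1 : ∀ i, ∃ w : Fin 3 → K i, ¬ U i ≤ W i → w ∈ U i ∧ w ∉ W i := by
      intro i
      by_cases hi : U i ≤ W i
      · exact ⟨0, fun h => absurd hi h⟩
      · obtain ⟨w, hw1, hw2⟩ := SetLike.not_le_iff_exists.mp hi
        exact ⟨w, fun _ => ⟨hw1, hw2⟩⟩
    choose w hw using h1
    have h2 : (fun j => Ideal.Quotient.mk (nullIdeal 𝓤 K) fun i => w i j) ∈ star 𝓤 U := by
      rw [mk_mem_star]
      filter_upwards [hn] with i hi using (hw i hi).1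
    have h3 := (mk_mem_star 𝓤).mp (h h2)
    obtain ⟨i, hi1, hi2⟩ := (h3.and hn).exists
    exact (hw i hi2).2 hi1
  · intro h v hv
    obtain ⟨w, rfl⟩ := exists_rep 𝓤 v
    rw [mk_mem_star] at hv ⊢
    filter_upwards [h, hv] with i h1 h2 using h1 h2

theorem star_eq_star {U W : ∀ i, Submodule (K i) (Fin 3 → K i)} :
    star 𝓤 U = star 𝓤 W ↔ ∀ᶠ i in (𝓤 : Filter ℕ), U i = W i := by
  rw [le_antisymm_iff, star_le_star, star_le_star, ← eventually_and]
  simp only [le_antisymm_iff]

theorem star_inf (U W : ∀ i, Submodule (K i) (Fin 3 → K i)) :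
    star 𝓤 (fun i => U i ⊓ W i) = star 𝓤 U ⊓ star 𝓤 W := by
  ext v
  obtain ⟨w, rfl⟩ := exists_rep 𝓤 v
  rw [Submodule.mem_inf, mk_mem_star, mk_mem_star, mk_mem_star, ← eventually_and]
  rfl

theorem star_sup (U W : ∀ i, Submodule (K i) (Fin 3 → K i)) :
    star 𝓤 (fun i => U i ⊔ W i) = star 𝓤 U ⊔ star 𝓤 W := by
  classical
  apply le_antisymm
  · intro v hv
    obtain ⟨w, rfl⟩ := exists_rep 𝓤 v
    rw [mk_mem_star] at hv
    have h1 : ∀ i, ∃ p : (Fin 3 → K i) × (Fin 3 → K i), w i ∈ U i ⊔ W i →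
        p.1 ∈ U i ∧ p.2 ∈ W i ∧ p.1 + p.2 = w i := by
      intro i
      by_cases hi : w i ∈ U i ⊔ W i
      · obtain ⟨a, ha, b, hb, hab⟩ := Submodule.mem_sup.mp hi
        exact ⟨(a, b), fun _ => ⟨ha, hb, hab⟩⟩
      · exact ⟨0, fun h => absurd h hi⟩
    choose p hp using h1
    rw [Submodule.mem_sup]
    refine ⟨_, (mk_mem_star 𝓤 (w := fun i => (p i).1)).mpr ?_, _,
      (mk_mem_star 𝓤 (w := fun i => (p i).2)).mpr ?_, ?_⟩
    · filter_upwards [hv] with i hi using (hp i hi).1
    · filter_upwards [hv] with i hi using (hp i hi).2.1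
    · ext j
      rw [Pi.add_apply, ← map_add, Ideal.Quotient.eq, mem_nullIdeal]
      filter_upwards [hv] with i hi
      have := congrFun (hp i hi).2.2 j
      simp only [Pi.sub_apply, Pi.add_apply] at this ⊢
      rw [this, sub_self]
  · apply sup_le
    · rw [star_le_star]
      exact Eventually.of_forall fun i => le_sup_left
    · rw [star_le_star]
      exact Eventually.of_forall fun i => le_sup_right

theorem charZero_uField (h : ∀ m : ℕ, m ≠ 0 → ∀ᶠ i in (𝓤 : Filter ℕ), (m : K i) ≠ 0) :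
    CharZero (UField 𝓤 K) := by
  refine charZero_of_inj_zero fun m hm => ?_
  by_contra hne
  have h1 : (Ideal.Quotient.mk (nullIdeal 𝓤 K)) ((m : ℕ) : ∀ i, K i) = 0 := by
    rw [map_natCast]; exact hm
  rw [Ideal.Quotient.eq_zero_iff_mem, mem_nullIdeal] at h1
  obtain ⟨i, hi1, hi2⟩ := (h1.and (h m hne)).exists
  exact hi2 (by simpa using hi1)

end Ultra

/-! ## Extension of scalars for subspaces -/

section Ext

variable {F : Type u} [Field F] (D : Type u) [Field D] [Algebra F D]

/-- the extension of scalars of a subspace of `F ^ 3` to `D ^ 3` -/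
def ext (U : Submodule F (Fin 3 → F)) : Submodule D (Fin 3 → D) where
  carrier := {v | ∀ l : D →ₗ[F] F, (fun j => l (v j)) ∈ U}
  add_mem' := by
    intro v w hv hw l
    have := add_mem (hv l) (hw l)
    convert this using 1
    ext j
    simp
  zero_mem' := by
    intro l
    convert U.zero_mem using 1
    ext j
    simp
  smul_mem' := by
    intro c v hv l
    exact hv (l.comp (LinearMap.mulLeft F c))

theorem ext_inf (U W : Submodule F (Fin 3 → F)) : ext D (U ⊓ W) = ext D U ⊓ ext D W := by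
  ext v
  exact forall_and

theorem algebraMap_mem_ext {U : Submodule F (Fin 3 → F)} {v : Fin 3 → F} :
    (fun j => algebraMap F D (v j)) ∈ ext D U ↔ v ∈ U := by
  constructor
  · intro h
    obtain ⟨l, hl⟩ := (Algebra.linearMap F D).exists_leftInverse_of_injective
      (LinearMap.ker_eq_bot.mpr (algebraMap F D).injective)
    have := h l
    convert this using 1
    ext j
    exact (LinearMap.congr_fun hl (v j)).symm
  · intro h l
    have : (fun j => l (algebraMap F D (v j))) = l 1 • v := by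
      ext j
      rw [Algebra.algebraMap_eq_smul_one, map_smul, Pi.smul_apply, smul_eq_mul, smul_eq_mul,
        mul_comm]
    rw [this]
    exact U.smul_mem _ h

theorem ext_mono {U W : Submodule F (Fin 3 → F)} (h : U ≤ W) : ext D U ≤ ext D W :=
  fun _ hv l => h (hv l)

theorem ext_injective : Function.Injective (ext (F := F) D) := by
  intro U W h
  ext v
  rw [← algebraMap_mem_ext D, h, algebraMap_mem_ext]

theorem ext_sup (U W : Submodule F (Fin 3 → F)) : ext D (U ⊔ W) = ext D U ⊔ ext D W := by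
  apply le_antisymm
  · -- a linear map of `F ^ 3` which maps `U ⊔ W` in `U` and is the identity modulo `W` on it
    obtain ⟨g, hg⟩ : ∃ g : (Fin 3 → F) →ₗ[F] (Fin 3 → F),
        ∀ v ∈ U ⊔ W, g v ∈ U ∧ v - g v ∈ W := by
      -- `U × W → U ⊔ W` has a linear section
      let q : (U × W) →ₗ[F] (Fin 3 → F) := U.subtype.coprod W.subtype
      obtain ⟨s, hs⟩ := q.rangeRestrict.exists_rightInverse_of_surjective
        (LinearMap.range_rangeRestrict q)
      obtain ⟨e, he⟩ := (LinearMap.exists_extend s)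
      refine ⟨U.subtype.comp ((LinearMap.fst F U W).comp e), fun v hv => ?_⟩
      have hv' : v ∈ LinearMap.range q := by
        rw [LinearMap.range_coprod, Submodule.range_subtype, Submodule.range_subtype]
        exact hv
      have h1 : e v = s ⟨v, hv'⟩ := LinearMap.congr_fun he ⟨v, hv'⟩
      have h2 : q (s ⟨v, hv'⟩) = v := by
        have := LinearMap.congr_fun hs ⟨v, hv'⟩
        exact congrArg Subtype.val this
      refine ⟨?_, ?_⟩
      · simp
      · have h3 : v = ((s ⟨v, hv'⟩).1 : Fin 3 → F) + ((s ⟨v, hv'⟩).2 : Fin 3 → F) := by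
          conv_lhs => rw [← h2]
          rfl
        have h4 : v - U.subtype.comp ((LinearMap.fst F U W).comp e) v =
            ((s ⟨v, hv'⟩).2 : Fin 3 → F) := by
          simp only [LinearMap.comp_apply, LinearMap.fst_apply, Submodule.subtype_apply, h1]
          exact sub_eq_of_eq_add' h3
        rw [h4]
        exact (s ⟨v, hv'⟩).2.2
    intro v hv
    -- the extension of `g` to `D ^ 3`
    let w : Fin 3 → D := fun j => ∑ k, algebraMap F D (g (Pi.single k 1) j) * v k
    have hw : ∀ l : D →ₗ[F] F, (fun j => l (w j)) = g fun j => l (v j) := by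
      intro l
      have h1 : (fun j => l (v j)) = ∑ k, l (v k) • (Pi.single k (1 : F) : Fin 3 → F) := by
        ext j
        simp [Finset.sum_apply, Pi.single_apply]
      rw [h1, map_sum]
      ext j
      simp only [w, map_sum, Finset.sum_apply, map_smul, Pi.smul_apply, smul_eq_mul]
      refine Finset.sum_congr rfl fun k _ => ?_
      rw [← Algebra.smul_def, map_smul, smul_eq_mul, mul_comm]
    rw [Submodule.mem_sup]
    refine ⟨w, fun l => ?_, v - w, fun l => ?_, by abel⟩
    · rw [hw]; exact (hg _ (hv l)).1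
    · have h1 : (fun j => l ((v - w) j)) = (fun j => l (v j)) - fun j => l (w j) := by
        ext j; simp
      rw [h1, hw]
      exact (hg _ (hv l)).2
  · exact sup_le (ext_mono D le_sup_left) (ext_mono D le_sup_right)

end Ext

/-! ## The ultraproduct of the lattices `Sub(K i ^ 3) × Sub(K' i ^ 3)` -/

section Main

variable (𝓤 : Ultrafilter ℕ) {K K' : ℕ → Type u} [∀ i, Field (K i)] [∀ i, Field (K' i)]
  (D : Type u) [Field D] [Algebra (UField 𝓤 K) D] [Algebra (UField 𝓤 K') D]

/-- the map from sequences to subspaces of `D ^ 3 ⊕ D ^ 3` -/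
noncomputable def Phi (x : ∀ i, Submodule (K i) (Fin 3 → K i) × Submodule (K' i) (Fin 3 → K' i)) :
    Submodule D ((Fin 3 → D) × (Fin 3 → D)) :=
  (ext D (star 𝓤 fun i => (x i).1)).prod (ext D (star 𝓤 fun i => (x i).2))

theorem prod_eq_prod {A A' : Submodule D (Fin 3 → D)} {B B' : Submodule D (Fin 3 → D)} :
    A.prod B = A'.prod B' ↔ A = A' ∧ B = B' := by
  constructor
  · intro h
    constructor
    · ext v
      have : ((v, 0) : (Fin 3 → D) × (Fin 3 → D)) ∈ A.prod B ↔ (v, 0) ∈ A'.prod B' := by rw [h]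
      simpa [Submodule.mem_prod] using this
    · ext v
      have : ((0, v) : (Fin 3 → D) × (Fin 3 → D)) ∈ A.prod B ↔ (0, v) ∈ A'.prod B' := by rw [h]
      simpa [Submodule.mem_prod] using this
  · rintro ⟨rfl, rfl⟩; rfl

theorem Phi_eq_iff (x y : ∀ i, Submodule (K i) (Fin 3 → K i) × Submodule (K' i) (Fin 3 → K' i)) :
    Phi 𝓤 D x = Phi 𝓤 D y ↔ ∀ᶠ i in (𝓤 : Filter ℕ), x i = y i := by
  unfold Phi
  rw [prod_eq_prod, (ext_injective D).eq_iff, (ext_injective D).eq_iff, star_eq_star,
    star_eq_star, ← eventually_and]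
  simp only [Prod.ext_iff]

theorem Phi_inf (x y : ∀ i, Submodule (K i) (Fin 3 → K i) × Submodule (K' i) (Fin 3 → K' i)) :
    Phi 𝓤 D (fun i => x i ⊓ y i) = Phi 𝓤 D x ⊓ Phi 𝓤 D y := by
  have h1 := star_inf 𝓤 (fun i => (x i).1) (fun i => (y i).1)
  have h2 := star_inf 𝓤 (fun i => (x i).2) (fun i => (y i).2)
  unfold Phi
  simp only [Prod.fst_inf, Prod.snd_inf]
  rw [h1, h2, ext_inf, ext_inf, Submodule.prod_inf_prod]

theorem Phi_sup (x y : ∀ i, Submodule (K i) (Fin 3 → K i) × Submodule (K' i) (Fin 3 → K' i)) :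
    Phi 𝓤 D (fun i => x i ⊔ y i) = Phi 𝓤 D x ⊔ Phi 𝓤 D y := by
  have h1 := star_sup 𝓤 (fun i => (x i).1) (fun i => (y i).1)
  have h2 := star_sup 𝓤 (fun i => (x i).2) (fun i => (y i).2)
  unfold Phi
  simp only [Prod.fst_sup, Prod.snd_sup]
  rw [h1, h2, ext_sup, ext_sup, Submodule.prod_sup_prod]

/-- the induced map from the ultraproduct -/
noncomputable def PhiQ : (𝓤 : Filter ℕ).Product
    (fun i => Submodule (K i) (Fin 3 → K i) × Submodule (K' i) (Fin 3 → K' i)) →
    Submodule D ((Fin 3 → D) × (Fin 3 → D)) :=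
  Quotient.lift (s := productSetoid (𝓤 : Filter ℕ) _) (Phi 𝓤 D)
    fun x y h => (Phi_eq_iff 𝓤 D x y).mpr h

theorem PhiQ_injective : Function.Injective (PhiQ (K := K) (K' := K') 𝓤 D) := by
  intro a b h
  induction a using Quotient.inductionOn with | h x => ?_
  induction b using Quotient.inductionOn with | h y => ?_
  exact Quotient.sound ((Phi_eq_iff 𝓤 D x y).mp h)

/-- the image of the ultraproduct is a sublattice -/
def imageLat (K K' : ℕ → Type u) [∀ i, Field (K i)] [∀ i, Field (K' i)]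
    [Algebra (UField 𝓤 K) D] [Algebra (UField 𝓤 K') D] :
    Sublattice (Submodule D ((Fin 3 → D) × (Fin 3 → D))) where
  carrier := Set.range (PhiQ (K := K) (K' := K') 𝓤 D)
  supClosed' := by
    rintro _ ⟨a, rfl⟩ _ ⟨b, rfl⟩
    induction a using Quotient.inductionOn with | h x => ?_
    induction b using Quotient.inductionOn with | h y => ?_
    exact ⟨Quotient.mk _ (fun i => x i ⊔ y i), Phi_sup 𝓤 D x y⟩
  infClosed' := by
    rintro _ ⟨a, rfl⟩ _ ⟨b, rfl⟩
    induction a using Quotient.inductionOn with | h x => ?_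
    induction b using Quotient.inductionOn with | h y => ?_
    exact ⟨Quotient.mk _ (fun i => x i ⊓ y i), Phi_inf 𝓤 D x y⟩

/-- the symbol for meets -/
def infSym : latLang.Functions 2 := LatFun.inf

/-- the symbol for joins -/
def supSym : latLang.Functions 2 := LatFun.sup

/-- the class of a sequence in the ultraproduct -/
def cls (y : ∀ i, (Submodule (K i) (Fin 3 → K i) × Submodule (K' i) (Fin 3 → K' i))) :
    (𝓤 : Filter ℕ).Product fun i => Submodule (K i) (Fin 3 → K i) ×
      Submodule (K' i) (Fin 3 → K' i) :=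
  Quotient.mk' (s := productSetoid (𝓤 : Filter ℕ) _) y

theorem PhiQ_cls (y : ∀ i, (Submodule (K i) (Fin 3 → K i) ×
    Submodule (K' i) (Fin 3 → K' i))) : PhiQ 𝓤 D (cls 𝓤 y) = Phi 𝓤 D y := rfl

theorem funMap_cls {n : ℕ} (f : latLang.Functions n) (y : Fin n → ∀ i,
    (Submodule (K i) (Fin 3 → K i) × Submodule (K' i) (Fin 3 → K' i))) :
    Language.Structure.funMap f (fun k => cls 𝓤 (y k)) =
      cls 𝓤 fun i => Language.Structure.funMap f fun k => y k i :=
  Language.Ultraproduct.funMap_cast f y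

theorem PhiQ_funMap_inf (y : Fin 2 → ∀ i, (Submodule (K i) (Fin 3 → K i) ×
    Submodule (K' i) (Fin 3 → K' i))) :
    PhiQ 𝓤 D (Language.Structure.funMap infSym fun k => cls 𝓤 (y k)) =
      Phi 𝓤 D (y 0) ⊓ Phi 𝓤 D (y 1) := by
  rw [funMap_cls, PhiQ_cls, ← Phi_inf]
  rfl

theorem PhiQ_funMap_sup (y : Fin 2 → ∀ i, (Submodule (K i) (Fin 3 → K i) ×
    Submodule (K' i) (Fin 3 → K' i))) :
    PhiQ 𝓤 D (Language.Structure.funMap supSym fun k => cls 𝓤 (y k)) =
      Phi 𝓤 D (y 0) ⊔ Phi 𝓤 D (y 1) := by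
  rw [funMap_cls, PhiQ_cls, ← Phi_sup]
  rfl

theorem exists_reps {n : ℕ} (x : Fin n → (𝓤 : Filter ℕ).Product
      (fun i => Submodule (K i) (Fin 3 → K i) × Submodule (K' i) (Fin 3 → K' i))) :
    ∃ y : Fin n → ∀ i, (Submodule (K i) (Fin 3 → K i) × Submodule (K' i) (Fin 3 → K' i)),
      x = fun k => cls 𝓤 (y k) := by
  choose y hy using fun k => Quotient.exists_rep (x k)
  exact ⟨y, funext fun k => (hy k).symm⟩

theorem PhiQ_funMap {n : ℕ} (f : latLang.Functions n) (x : Fin n → (𝓤 : Filter ℕ).Product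
      (fun i => Submodule (K i) (Fin 3 → K i) × Submodule (K' i) (Fin 3 → K' i))) :
    PhiQ 𝓤 D (Language.Structure.funMap f x) =
      Language.Structure.funMap f (fun k => PhiQ 𝓤 D (x k)) := by
  obtain ⟨y, rfl⟩ := exists_reps 𝓤 x
  match n, f with
  | _, LatFun.inf => exact PhiQ_funMap_inf 𝓤 D y
  | _, LatFun.sup => exact PhiQ_funMap_sup 𝓤 D y

theorem val_funMap {n : ℕ} (f : latLang.Functions n) (z : Fin n → imageLat 𝓤 D K K') :
    ((Language.Structure.funMap f z : imageLat 𝓤 D K K') :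
      Submodule D ((Fin 3 → D) × (Fin 3 → D))) = Language.Structure.funMap f (fun k => (z k).1) :=
  match n, f with
  | _, LatFun.inf => rfl
  | _, LatFun.sup => rfl

/-- the ultraproduct is isomorphic, as a structure for the language of lattices, to the
sublattice `imageLat` of the lattice of subspaces of `D ^ 3 ⊕ D ^ 3` -/
noncomputable def imageEquiv :
    latLang.Equiv ((𝓤 : Filter ℕ).Product
      (fun i => Submodule (K i) (Fin 3 → K i) × Submodule (K' i) (Fin 3 → K' i)))
      (imageLat 𝓤 D K K') where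
  toEquiv := Equiv.ofInjective _ (PhiQ_injective 𝓤 D)
  map_fun' := by
    intro n f x
    apply Subtype.ext
    rw [val_funMap]
    exact PhiQ_funMap 𝓤 D f x
  map_rel' := fun r => Empty.elim r

theorem inK_image : InK (imageLat 𝓤 D K K') :=
  ⟨D, inferInstance, (Fin 3 → D) × (Fin 3 → D), inferInstance, inferInstance, fun a => a.1,
    Subtype.val_injective, fun _ _ => rfl, fun _ _ => rfl⟩

end Main

/-- Two fields of characteristic zero have a common extension field. -/
theorem exists_common (F F' : Type u) [Field F] [Field F'] [CharZero F] [CharZero F'] :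
    ∃ (D : Type u) (_ : Field D), Nonempty (Algebra F D) ∧ Nonempty (Algebra F' D) := by
  let T := TensorProduct ℚ F F'
  have hT : Nontrivial T := inferInstance
  obtain ⟨m, hm⟩ := Ideal.exists_maximal T
  refine ⟨T ⧸ m, Ideal.Quotient.field m, ⟨?_⟩, ⟨?_⟩⟩
  · exact ((Ideal.Quotient.mk m).comp
      (Algebra.TensorProduct.includeLeft (R := ℚ) (S := ℚ) (A := F) (B := F')).toRingHom).toAlgebra
  · exact ((Ideal.Quotient.mk m).comp
      (Algebra.TensorProduct.includeRight (R := ℚ) (A := F) (B := F')).toRingHom).toAlgebra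

/-- **The class `𝒦` is not finitely axiomatizable.** -/
theorem result : ¬ ∃ S : Set latLang.Sentence, S.Finite ∧
    ∀ (L : Type u) [Lattice L], InK L ↔ ∀ φ ∈ S, L ⊨ φ := by
  rintro ⟨S, hS, h⟩
  -- the primes and the fields
  choose p hp hpp using fun i : ℕ => Nat.exists_infinite_primes (i + 1)
  have hfact : ∀ i, Fact (p i).Prime := fun i => ⟨hpp i⟩
  let K : ℕ → Type u := fun i => ULift.{u} (ZMod (p i))
  let K' : ℕ → Type u := fun _ => ULift.{u} ℚ
  let _ : ∀ i, Field (K i) := fun i => (inferInstance : Field (ULift.{u} (ZMod (p i))))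
  let _ : ∀ i, Field (K' i) := fun i => (inferInstance : Field (ULift.{u} ℚ))
  let 𝓤 : Ultrafilter ℕ := hyperfilter ℕ
  have hcast : ∀ (i m : ℕ), ((m : K i) = 0 ↔ p i ∣ m) := by
    intro i m
    rw [← ZMod.natCast_eq_zero_iff]
    constructor
    · intro h; exact congrArg ULift.down h
    · intro h; exact congrArg ULift.up h
  have hcast' : ∀ (i m : ℕ), ((m : K' i) = 0 ↔ m = 0) := by
    intro i m
    rw [← Nat.cast_eq_zero (R := ℚ)]
    constructor
    · intro h; exact congrArg ULift.down h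
    · intro h; exact congrArg ULift.up h
  have hcz : CharZero (UField 𝓤 K) := by
    apply charZero_uField
    intro m hm
    have hfin : {i | (m : K i) = 0}.Finite := by
      apply (Set.finite_lt_nat m).subset
      intro i hi
      have h1 : p i ∣ m := (hcast i m).mp hi
      have h2 := Nat.le_of_dvd (Nat.pos_of_ne_zero hm) h1
      have h3 := hp i
      show i < m
      omega
    exact hfin.compl_mem_hyperfilter
  have hcz' : CharZero (UField 𝓤 K') := by
    apply charZero_uField
    intro m hm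
    exact Eventually.of_forall fun i hi => hm ((hcast' i m).mp hi)
  obtain ⟨D, hD, ⟨a1⟩, ⟨a2⟩⟩ := exists_common (UField 𝓤 K) (UField 𝓤 K')
  -- no factor is in the class
  have h1 : ∀ i, ∃ φ ∈ S, ¬ (Submodule (K i) (Fin 3 → K i) ×
      Submodule (K' i) (Fin 3 → K' i)) ⊨ φ := by
    intro i
    have h2 : ¬ InK (Submodule (K i) (Fin 3 → K i) × Submodule (K' i) (Fin 3 → K' i)) :=
      not_inK_prod (p i) ((hcast i _).mpr dvd_rfl)
        (fun h0 => (hpp i).ne_zero ((hcast' i _).mp h0))
    rw [h] at h2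
    push Not at h2
    exact h2
  -- one sentence fails almost everywhere
  obtain ⟨φ, hφ, h3⟩ : ∃ φ ∈ S, ∀ᶠ i in (𝓤 : Filter ℕ), ¬ (Submodule (K i) (Fin 3 → K i) ×
      Submodule (K' i) (Fin 3 → K' i)) ⊨ φ := by
    have h4 : (⋃ φ ∈ S, {i | ¬ (Submodule (K i) (Fin 3 → K i) ×
      Submodule (K' i) (Fin 3 → K' i)) ⊨ φ}) ∈ 𝓤 := by
      refine Filter.mem_of_superset Filter.univ_mem fun i _ => ?_
      obtain ⟨φ, hφ, h5⟩ := h1 i
      exact Set.mem_biUnion hφ h5
    rw [Ultrafilter.finite_biUnion_mem_iff hS] at h4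
    exact h4
  -- it holds in the ultraproduct
  have h6 := (h (imageLat 𝓤 D K K')).mp (inK_image 𝓤 D) φ hφ
  have h7 : ((𝓤 : Filter ℕ).Product
      (fun i => Submodule (K i) (Fin 3 → K i) × Submodule (K' i) (Fin 3 → K' i))) ⊨ φ :=
    (Language.StrongHomClass.realize_sentence (imageEquiv 𝓤 D) φ).mpr h6
  rw [Language.Ultraproduct.sentence_realize] at h7
  obtain ⟨i, hi1, hi2⟩ := (h7.and h3).exists
  exact hi2 hi1

end Pool.Agent.Results.MP_d4b74c_al.NotFinitelyAxiomatizable
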